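import Pool.Agent.H390R2.LP.Hermite
import Pool.Agent.TH41.LP.VOL
import Pool.Agent.Results.MP_dbfdb2_gt.KPointBarrier
import Pool.Agent.Results.MP_dbfdb2_gt.LasserreBarrier

/-!
# MP_ef2672_gt: what the semidefinite hierarchies can prove about Hermite's constant

A pseudo-packing of level `(s, t)` on a finite set `X` of points of `ℝ^n` is a real function `y` on
the subsets of `X` which behaves like `y(S) = Prob(S ⊆ C)` for a random set `C ⊆ X` of points with
mutual distances `≥ 1`, as far as this can be seen by the Lasserre hierarchy. The bound of level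
`(s, t)` for the density of sphere packings gives the bound
`hermiteBound n s t = 4 (lasserreDensity n s t / ω_n)^(2/n)` for Hermite's constant `γ_n`; level
`(0, 1)` contains the linear programming bound, levels `(s, 1)` are the `(s + 2)`-point bounds, and
levels `(0, t)` the hierarchy of de Laat and Vallentin.

The bounds of level `(s, 1)` prove exactly `limsup γ_n / n ≤ 1 / π^2`, also if `s` grows like
`exp(o(n))`. No bound of a fixed level proves the believed `limsup γ_n / n ≤ 1 / (2πe)`: the bounds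
of level `t` are at least `((e/2)^(1/t) - ε) / (2πe)`, also for growing levels `t = o(n / log n)`,
and to reach `n^(A/n) / (2πe)` one needs levels `t ≥ c n / log n`.
-/

open MeasureTheory Filter Topology

namespace Pool.Agent.Results.MP_ef2672_gt.HermiteHierarchies

/-- Hermite's constant `γ_n`: supremum over full-rank lattices `A ℤⁿ` of the least squared length
of a nonzero vector divided by `covolume^(2/n)`. -/
noncomputable def hermite (n : ℕ) : ℝ :=
  ⨆ A : {A : Matrix (Fin n) (Fin n) ℝ // A.det ≠ 0},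
    (⨅ w : {w : Fin n → ℤ // w ≠ 0}, ∑ i, (Matrix.mulVec A.1 (fun j => (w.1 j : ℝ))) i ^ 2)
      / |A.1.det| ^ ((2 : ℝ) / (n : ℝ))

/-- The pseudo-probability of `D ∪ S ⊆ C, F ∩ C = ∅`:
`∑_{G ⊆ F} (-1)^|G| y(D ∪ G ∪ S)`. -/
def pseudoProb {V : Type} [DecidableEq V] (y : Finset V → ℝ) (D F S : Finset V) : ℝ :=
  ∑ G ∈ F.powerset, (-1) ^ G.card * y (D ∪ G ∪ S)

open Classical in
/-- Pseudo-packings of level `(s, t)` (with minimum distance `1`) on the finite set `X`. The rows
and columns of the matrices are indexed by the sets `S` with at most `t` points. -/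
structure IsPseudoPacking (n s t : ℕ) (X : Finset (EuclideanSpace ℝ (Fin n))) (y : Finset X → ℝ) :
    Prop where
  one : y ∅ = 1
  dist : ∀ S : Finset X, ∀ u ∈ S, ∀ v ∈ S, u ≠ v →
    dist (u : EuclideanSpace ℝ (Fin n)) v < 1 → y S = 0
  nonneg : ∀ D F : Finset X, D.card + F.card ≤ s + 2 * t → 0 ≤ pseudoProb y D F ∅
  psd : ∀ D F : Finset X, D.card + F.card ≤ s → ∀ a : Finset X → ℝ,
    (∀ S, t < S.card → a S = 0) → 0 ≤ ∑ S, ∑ T, a S * a T * pseudoProb y D F (S ∪ T)

/-- `B` is an upper bound for `∑_x y({x})` for all pseudo-packings `y` of level `(s, t)` on finite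
subsets of the region `Λ`. -/
def IsBound (n s t : ℕ) (Λ : Set (EuclideanSpace ℝ (Fin n))) (B : ℝ) : Prop :=
  ∀ X : Finset (EuclideanSpace ℝ (Fin n)), (X : Set (EuclideanSpace ℝ (Fin n))) ⊆ Λ →
    ∀ y : Finset X → ℝ, IsPseudoPacking n s t X y → ∑ x, y {x} ≤ B

/-- The bound of level `(s, t)` for the density of sphere packings in `ℝ^n`: the infimum of
`B vol(B_{1/2}) / vol(Λ)` over all bounded regions `Λ` and upper bounds `B` for the pseudo-packings
of level `(s, t)` in `Λ`. -/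
noncomputable def lasserreDensity (n s t : ℕ) : ℝ :=
  sInf {δ : ℝ | ∃ (Λ : Set (EuclideanSpace ℝ (Fin n))) (B : ℝ), MeasurableSet Λ ∧
    Bornology.IsBounded Λ ∧ 0 < volume.real Λ ∧ IsBound n s t Λ B ∧
    δ = B * volume.real (Metric.ball (0 : EuclideanSpace ℝ (Fin n)) (1 / 2)) / volume.real Λ}

/-- The bound of level `(s, t)` for Hermite's constant: `4 (lasserreDensity n s t / ω_n)^(2/n)`
with the volume `ω_n` of the unit ball. -/
noncomputable def hermiteBound (n s t : ℕ) : ℝ :=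
  4 * (lasserreDensity n s t /
    volume.real (Metric.ball (0 : EuclideanSpace ℝ (Fin n)) 1)) ^ (2 / (n : ℝ))

open Pool.Agent.Y509 Pool.Agent.H390R2.LP

open Pool.Agent.H818R2 (rho)

lemma pack_iff (n s t : ℕ) (X : Finset (EuclideanSpace ℝ (Fin n))) (y : Finset X → ℝ) :
    IsPseudoPacking n s t X y ↔ LS.LPack n s t X y :=
  ⟨fun h => ⟨h.one, h.dist, h.nonneg, h.psd⟩, fun h => ⟨h.one, h.sep, h.nonneg, h.psd⟩⟩

lemma bound_iff (n s t : ℕ) (Λ : Set (EuclideanSpace ℝ (Fin n))) (B : ℝ) :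
    IsBound n s t Λ B ↔ LS.LBd n s t Λ B := by
  unfold IsBound LS.LBd
  simp only [pack_iff]

lemma density_eq (n s t : ℕ) : lasserreDensity n s t = sInf (LS.lset n s t) := by
  unfold lasserreDensity LS.lset
  simp only [bound_iff]

lemma density_eq' (n s t : ℕ) :
    lasserreDensity n s t = MP_dbfdb2_gt.LasserreBarrier.lasserreDensity n s t := by
  rw [density_eq, MP_dbfdb2_gt.LasserreBarrier.density_eq]

lemma toFinset_card {V : Type} (o : Option V) : o.toFinset.card ≤ 1 := by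
  cases o <;> simp

lemma toFinset_inj {V : Type} : Function.Injective (Option.toFinset : Option V → Finset V) := by
  intro a b h
  cases a <;> cases b <;> simp_all

open Classical in
/-- level `(s, 1)` is the `(s + 2)`-point bound -/
lemma lpack_one (n s : ℕ) (X : Finset (EuclideanSpace ℝ (Fin n))) (y : Finset X → ℝ) :
    LS.LPack n s 1 X y ↔ KP.PPack n (s + 2) X y := by
  constructor
  · intro h
    refine ⟨h.one, h.sep, fun D F hc => h.nonneg D F (by omega), fun D F hc a => ?_⟩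
    obtain ⟨b, hb⟩ : ∃ b : Finset X → ℝ, b = fun S => ∑ o : Option X,
      if o.toFinset = S then a o else 0 := ⟨_, rfl⟩
    have key : ∀ φ : Finset X → ℝ, ∑ S, b S * φ S = ∑ o, a o * φ o.toFinset := by
      intro φ
      rw [hb]
      simp only [Finset.sum_mul]
      rw [Finset.sum_comm]
      refine Finset.sum_congr rfl fun o _ => ?_
      simp [ite_mul]
    have h1 := h.psd D F (by omega) b (fun S hS => by
      rw [hb]
      refine Finset.sum_eq_zero fun o _ => ?_
      rw [if_neg]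
      rintro rfl
      exact absurd (toFinset_card o) (by omega))
    have h2 : ∑ S, ∑ T, b S * b T * Pool.Agent.Y570.KP.cond y D F (S ∪ T) =
        ∑ s, ∑ t, a s * a t * Pool.Agent.Y570.KP.cond y D F (s.toFinset ∪ t.toFinset) := by
      have e1 : ∀ S : Finset X, ∑ T, b S * b T * Pool.Agent.Y570.KP.cond y D F (S ∪ T) =
          b S * ∑ t, a t * Pool.Agent.Y570.KP.cond y D F (S ∪ t.toFinset) := by
        intro S
        rw [← key fun T => Pool.Agent.Y570.KP.cond y D F (S ∪ T), Finset.mul_sum]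
        exact Finset.sum_congr rfl fun T _ => by ring
      simp only [e1]
      rw [key fun S => ∑ t, a t * Pool.Agent.Y570.KP.cond y D F (S ∪ t.toFinset)]
      refine Finset.sum_congr rfl fun o _ => ?_
      rw [Finset.mul_sum]
      exact Finset.sum_congr rfl fun T _ => by ring
    rw [h2] at h1
    exact h1
  · intro h
    refine ⟨h.one, h.sep, fun D F hc => h.nonneg D F (by omega), fun D F hc a ha => ?_⟩
    have key : ∀ φ : Finset X → ℝ, ∑ S, a S * φ S = ∑ o : Option X, a o.toFinset * φ o.toFinset := by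
      intro φ
      rw [← Finset.sum_image (f := fun S => a S * φ S) (g := fun o : Option X => o.toFinset)
        (fun x _ y _ hxy => toFinset_inj hxy)]
      symm
      refine Finset.sum_subset (Finset.subset_univ _) fun S _ hS => ?_
      rw [ha S, zero_mul]
      by_contra hc
      apply hS
      rw [Finset.mem_image]
      rcases Nat.lt_or_ge S.card 1 with h1 | h1
      · refine ⟨none, Finset.mem_univ _, ?_⟩
        rw [Finset.card_eq_zero.1 (by omega : S.card = 0)]
        rfl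
      · obtain ⟨x, hx⟩ := Finset.card_eq_one.1 (by omega : S.card = 1)
        exact ⟨some x, Finset.mem_univ _, by rw [hx]; rfl⟩
    have h1 := h.psd D F (by omega) fun o => a o.toFinset
    have h2 : ∑ S, ∑ T, a S * a T * Pool.Agent.Y570.KP.cond y D F (S ∪ T) =
        ∑ s : Option X, ∑ t : Option X, a s.toFinset * a t.toFinset *
          Pool.Agent.Y570.KP.cond y D F (s.toFinset ∪ t.toFinset) := by
      have e1 : ∀ S : Finset X, ∑ T, a S * a T * Pool.Agent.Y570.KP.cond y D F (S ∪ T) =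
          a S * ∑ t : Option X, a t.toFinset *
            Pool.Agent.Y570.KP.cond y D F (S ∪ t.toFinset) := by
        intro S
        rw [← key fun T => Pool.Agent.Y570.KP.cond y D F (S ∪ T), Finset.mul_sum]
        exact Finset.sum_congr rfl fun T _ => by ring
      simp only [e1]
      rw [key fun S => ∑ t : Option X, a t.toFinset *
        Pool.Agent.Y570.KP.cond y D F (S ∪ t.toFinset)]
      refine Finset.sum_congr rfl fun o _ => ?_
      rw [Finset.mul_sum]
      exact Finset.sum_congr rfl fun T _ => by ring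
    rw [h2]
    exact h1

lemma density_one (n s : ℕ) :
    lasserreDensity n s 1 = MP_dbfdb2_gt.KPointBarrier.kPointDensity n (s + 2) := by
  rw [density_eq, MP_dbfdb2_gt.KPointBarrier.density_eq]
  unfold LS.lset KP.kDens LS.LBd KP.LBound
  simp only [lpack_one]

/-- the volume of the unit ball -/
noncomputable abbrev om (n : ℕ) : ℝ :=
  volume.real (Metric.ball (0 : EuclideanSpace ℝ (Fin n)) 1)

lemma om_pos (n : ℕ) : 0 < om n := by
  unfold om
  rw [measureReal_def]
  exact ENNReal.toReal_pos (Metric.measure_ball_pos volume _ one_pos).ne' measure_ball_lt_top.ne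

lemma om_eq {n : ℕ} (hn : 0 < n) :
    om n = √Real.pi ^ n / Real.Gamma ((n : ℝ) / 2 + 1) := by
  have : Nonempty (Fin n) := ⟨⟨0, hn⟩⟩
  have hn' : (0 : ℝ) < n := by exact_mod_cast hn
  have hG : 0 < Real.Gamma ((n : ℝ) / 2 + 1) := Real.Gamma_pos_of_pos (by positivity)
  unfold om
  rw [measureReal_def, EuclideanSpace.volume_ball, Fintype.card_fin, ENNReal.ofReal_one, one_pow,
    one_mul, ENNReal.toReal_ofReal (by positivity)]

/-- `ω_n ≤ (2πe/n)^(n/2)` -/
lemma om_le {n : ℕ} (hn : 0 < n) :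
    om n ≤ (2 * Real.pi * Real.exp 1 / n) ^ ((n : ℝ) / 2) := by
  have hn' : (0 : ℝ) < n := by exact_mod_cast hn
  have h1 := Pool.Agent.TH41.LP.VOLf.gamma_lower (x := (n : ℝ) / 2) (by positivity)
  have hG : 0 < Real.Gamma ((n : ℝ) / 2 + 1) := Real.Gamma_pos_of_pos (by positivity)
  rw [om_eq hn, div_le_iff₀ hG]
  refine le_trans (le_of_eq ?_) (mul_le_mul_of_nonneg_left h1 (by positivity))
  rw [Real.rpow_def_of_pos (by positivity), ← Real.exp_add]
  have h2 : √Real.pi ^ n = Real.exp (n / 2 * Real.log Real.pi) := by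
    rw [← Real.rpow_natCast, Real.sqrt_eq_rpow, ← Real.rpow_mul Real.pi_pos.le,
      Real.rpow_def_of_pos Real.pi_pos]
    congr 1
    ring
  rw [h2]
  congr 1
  have h3 : Real.log (2 * Real.pi * Real.exp 1 / n) =
      Real.log 2 + Real.log Real.pi + 1 - Real.log n := by
    rw [Real.log_div (by positivity) hn'.ne', Real.log_mul (by positivity) (Real.exp_pos 1).ne',
      Real.log_mul (by norm_num) Real.pi_pos.ne', Real.log_exp]
  rw [h3, Real.log_div hn'.ne' (by norm_num)]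
  ring

/-- `ω_n ≥ (2πe/n)^(n/2) / (3n)` -/
lemma om_ge {n : ℕ} (hn : 0 < n) :
    (2 * Real.pi * Real.exp 1 / n) ^ ((n : ℝ) / 2) / (3 * n) ≤ om n := by
  have hn' : (0 : ℝ) < n := by exact_mod_cast hn
  have h1 := volume_ball_ge n hn 0 1 zero_le_one
  rw [mul_one] at h1
  have h2 : √(2 * Real.pi * Real.exp 1 / n) ^ n =
      (2 * Real.pi * Real.exp 1 / n) ^ ((n : ℝ) / 2) := by
    rw [← Real.rpow_natCast, Real.sqrt_eq_rpow, ← Real.rpow_mul (by positivity)]
    congr 1
    ring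
  rw [h2] at h1
  have h3 := ENNReal.toReal_mono measure_ball_lt_top.ne h1
  rwa [ENNReal.toReal_ofReal (by positivity)] at h3

theorem rhoStar_le_rho (k : ℕ) : rhoStar k ≤ ENNReal.ofReal (rho k) := by
  unfold rhoStar
  refine iSup_le fun P => iSup_le fun r => iSup_le fun hP => ?_
  have h1 : Pool.Agent.H818R2.upperDensity P r ≤ rho k :=
    Pool.Agent.H818R2.le_optDensity hP
  refine ENNReal.le_of_forall_pos_le_add ?_
  intro ε hε _
  have hε' : (0 : ℝ) < ε := hε
  have h2 : Pool.Agent.H818R2.upperDensity P r < rho k + ε := by linarith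
  unfold Pool.Agent.H818R2.upperDensity at h2
  have h3 := eventually_lt_of_limsup_lt h2 (isBoundedUnder_of ⟨1, fun R =>
    div_le_one_of_le₀ (measureReal_mono Set.inter_subset_left measure_ball_lt_top.ne)
      measureReal_nonneg⟩)
  unfold Pool.Agent.H390R2.LP.upperDensity
  refine limsup_le_of_le ⟨0, fun a _ => zero_le⟩ ?_
  filter_upwards [h3, eventually_gt_atTop 0] with R hR hR0
  have hrho := Pool.Agent.H818R2.rho_nonneg k
  have e : ENNReal.ofReal (rho k) + (ε : ENNReal)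
      = ENNReal.ofReal (rho k + ε) := by
    rw [ENNReal.ofReal_add hrho hε'.le, ENNReal.ofReal_coe_nnreal]
  rw [e, ENNReal.le_ofReal_iff_toReal_le _ (by positivity), ENNReal.toReal_div]
  · exact hR.le
  · apply ENNReal.div_ne_top
    · exact ne_top_of_le_ne_top measure_ball_lt_top.ne (measure_mono Set.inter_subset_left)
    · exact (Metric.measure_ball_pos volume _ hR0).ne'

/-- Hermite's constant and the density of sphere packings -/
lemma hermite_le {n : ℕ} (hn : 0 < n) : hermite n ≤ 4 * (rho n / om n) ^ (2 / (n : ℝ)) := by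
  have hn' : (0 : ℝ) < n := by exact_mod_cast hn
  have hom := om_pos n
  have hrho := Pool.Agent.H818R2.rho_nonneg n
  unfold hermite
  apply Real.iSup_le _ (by positivity)
  rintro ⟨A, hA⟩
  simp only
  set m := ⨅ w : {w : Fin n → ℤ // w ≠ 0}, ∑ i, (Matrix.mulVec A (fun j => (w.1 j : ℝ))) i ^ 2
    with hm
  have hd : 0 < |A.det| := abs_pos.mpr hA
  rcases le_or_gt m 0 with hm0 | hm0
  · calc _ ≤ (0 : ℝ) := div_nonpos_of_nonpos_of_nonneg hm0 (by positivity)
      _ ≤ _ := by positivity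
  have hmin : ∀ w : Fin n → ℤ, w ≠ 0 → m ≤ ∑ i, (Matrix.mulVec A (fun j => (w j : ℝ))) i ^ 2 := by
    intro w hw
    have hb : BddBelow (Set.range fun w : {w : Fin n → ℤ // w ≠ 0} =>
        ∑ i, (Matrix.mulVec A (fun j => (w.1 j : ℝ))) i ^ 2) :=
      ⟨0, by rintro _ ⟨w, rfl⟩; positivity⟩
    exact ciInf_le hb ⟨w, hw⟩
  have hpack := lat_packing A m hm0 hmin
  have h1 := density_lat hn A hA _ hpack
  have h2 : upperDensity (lat A) (√m / 2) ≤ rhoStar n := by
    unfold rhoStar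
    exact le_iSup_of_le (lat A) (le_iSup_of_le (√m / 2) (le_iSup_of_le hpack le_rfl))
  have h3 := (h1.trans h2).trans (rhoStar_le_rho n)
  have h4 : (√m / 2) ^ n * om n ≤ rho n * |A.det| := by
    have h5 := ENNReal.toReal_mono ENNReal.ofReal_ne_top h3
    rw [ENNReal.toReal_ofReal hrho, ENNReal.toReal_div, ENNReal.toReal_ofReal hd.le,
      div_le_iff₀ hd] at h5
    refine le_trans (le_of_eq ?_) h5
    rw [Measure.addHaar_ball_of_pos volume 0 (by positivity), ENNReal.toReal_mul,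
      ENNReal.toReal_ofReal (by positivity), finrank_euclideanSpace_fin]
    rfl
  have h5 : (√m / 2) ^ n ≤ rho n / om n * |A.det| := by
    rw [div_mul_eq_mul_div, le_div_iff₀ hom]
    exact h4
  have h8 := Real.rpow_le_rpow (by positivity) h5 (show (0 : ℝ) ≤ 2 / n by positivity)
  have e1 : ((√m / 2) ^ n) ^ ((2 : ℝ) / n) = m / 4 := by
    rw [← Real.rpow_natCast, ← Real.rpow_mul (by positivity)]
    have : (n : ℝ) * (2 / n) = (2 : ℕ) := by
      push_cast; field_simp
    rw [this, Real.rpow_natCast, div_pow, Real.sq_sqrt hm0.le]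
    norm_num
  rw [e1, Real.mul_rpow (by positivity) hd.le] at h8
  have hdp : 0 < |A.det| ^ ((2 : ℝ) / n) := by positivity
  rw [div_le_iff₀ hdp]
  linarith

lemma dens_nonneg {n s t : ℕ} (ht : 1 ≤ t) : 0 ≤ lasserreDensity n s t := by
  rw [density_eq]
  exact (Pool.Agent.H818R2.rho_nonneg n).trans (LS.rho_le ht)

/-- **Validity.** -/
lemma valid {n s t : ℕ} (hn : 1 ≤ n) (ht : 1 ≤ t) : hermite n ≤ hermiteBound n s t := by
  have hom := om_pos n
  refine (hermite_le hn).trans ?_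
  unfold hermiteBound
  refine mul_le_mul_of_nonneg_left ?_ (by norm_num)
  refine Real.rpow_le_rpow (div_nonneg (Pool.Agent.H818R2.rho_nonneg n) hom.le) ?_ (by positivity)
  refine div_le_div_of_nonneg_right ?_ hom.le
  rw [density_eq]
  exact LS.rho_le ht

lemma bound_mono {n : ℕ} {a b : ℝ} (ha : 0 ≤ a) (hab : a ≤ b) :
    4 * (a / om n) ^ (2 / (n : ℝ)) ≤ 4 * (b / om n) ^ (2 / (n : ℝ)) := by
  have hom := om_pos n
  refine mul_le_mul_of_nonneg_left ?_ (by norm_num)
  exact Real.rpow_le_rpow (div_nonneg ha hom.le) (div_le_div_of_nonneg_right hab hom.le)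
    (by positivity)

/-- lower bounds for the density give lower bounds for the bound of Hermite's constant -/
lemma ge_of {n : ℕ} (hn : 0 < n) {q δ : ℝ} (hq : 0 < q) (h : q ^ ((n : ℝ) / 2) ≤ δ) :
    4 * q / (2 * Real.pi * Real.exp 1) * n ≤ 4 * (δ / om n) ^ (2 / (n : ℝ)) := by
  have hn' : (0 : ℝ) < n := by exact_mod_cast hn
  have hom := om_pos n
  have hpi := Real.pi_pos
  have h1 : (q / (2 * Real.pi * Real.exp 1 / n)) ^ ((n : ℝ) / 2) ≤ δ / om n := by
    rw [Real.div_rpow hq.le (by positivity)]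
    exact div_le_div₀ ((Real.rpow_nonneg hq.le _).trans h) h hom (om_le hn)
  have h2 := Real.rpow_le_rpow (Real.rpow_nonneg (by positivity) _) h1
    (show (0 : ℝ) ≤ 2 / n by positivity)
  rw [← Real.rpow_mul (by positivity)] at h2
  have h3 : (n : ℝ) / 2 * (2 / n) = 1 := by field_simp
  rw [h3, Real.rpow_one] at h2
  calc 4 * q / (2 * Real.pi * Real.exp 1) * n = 4 * (q / (2 * Real.pi * Real.exp 1 / n)) := by
        field_simp
    _ ≤ _ := mul_le_mul_of_nonneg_left h2 (by norm_num)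

/-- upper bounds for the density give upper bounds for the bound of Hermite's constant -/
lemma le_of {n : ℕ} (hn : 0 < n) {q δ : ℝ} (hq : 0 < q) (hδ : 0 ≤ δ) (h : δ ≤ q ^ ((n : ℝ) / 2)) :
    4 * (δ / om n) ^ (2 / (n : ℝ)) ≤
      4 * q / (2 * Real.pi * Real.exp 1) * n * (3 * n : ℝ) ^ ((2 : ℝ) / n) := by
  have hn' : (0 : ℝ) < n := by exact_mod_cast hn
  have hom := om_pos n
  have hpi := Real.pi_pos
  have h1 : δ / om n ≤ (q / (2 * Real.pi * Real.exp 1 / n)) ^ ((n : ℝ) / 2) * (3 * n) := by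
    rw [Real.div_rpow hq.le (by positivity), div_mul_eq_mul_div, ← div_div_eq_mul_div]
    exact div_le_div₀ (Real.rpow_nonneg hq.le _) h (by positivity) (om_ge hn)
  have h2 := Real.rpow_le_rpow (div_nonneg hδ hom.le) h1 (show (0 : ℝ) ≤ 2 / n by positivity)
  rw [Real.mul_rpow (Real.rpow_nonneg (by positivity) _) (by positivity),
    ← Real.rpow_mul (by positivity)] at h2
  have h3 : (n : ℝ) / 2 * (2 / n) = 1 := by field_simp
  rw [h3, Real.rpow_one] at h2
  calc 4 * (δ / om n) ^ (2 / (n : ℝ)) ≤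
      4 * (q / (2 * Real.pi * Real.exp 1 / n) * (3 * n : ℝ) ^ ((2 : ℝ) / n)) :=
        mul_le_mul_of_nonneg_left h2 (by norm_num)
    _ = _ := by field_simp

/-- **The `(s + 2)`-point bounds.** -/
lemma kpoint : ∃ c : ℝ, 0 < c ∧ ∀ ε : ℝ, 0 < ε → ε ≤ 1 → ∀ᶠ n : ℕ in atTop, ∀ s : ℕ,
    (s : ℝ) ≤ Real.exp (c * ε ^ 6 * n) → |hermiteBound n s 1 / n - 1 / Real.pi ^ 2| ≤ ε := by
  obtain ⟨-, -, ⟨c, hc, h⟩, -⟩ := MP_dbfdb2_gt.KPointBarrier.result
  have hpi := Real.pi_pos
  have hpi3 := Real.pi_gt_three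
  have he := Real.exp_pos 1
  refine ⟨c / 1458, by positivity, fun ε hε hε1 => ?_⟩
  have h3n := tendsto_three_n.eventually (gt_mem_nhds (show (1 : ℝ) < Real.exp (ε / 3) by
    rw [Real.one_lt_exp_iff]; positivity))
  have hlarge : ∀ᶠ n : ℕ in atTop, Real.log 3 / (c / 1458 * ε ^ 6) ≤ n :=
    tendsto_natCast_atTop_atTop.eventually_ge_atTop _
  filter_upwards [h (ε / 3) (by positivity) (by linarith), h3n, hlarge, eventually_ge_atTop 1]
    with n hn h3 hl hn1 s hs
  have hn0 : 0 < n := hn1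
  have hn' : (0 : ℝ) < n := by exact_mod_cast hn0
  have hx : (0 : ℝ) < c / 1458 * ε ^ 6 := by positivity
  have h3e : (3 : ℝ) ≤ Real.exp (c / 1458 * ε ^ 6 * n) := by
    rw [div_le_iff₀ hx] at hl
    rw [← Real.log_le_iff_le_exp (by norm_num)]
    linarith
  have hk : ((s + 2 : ℕ) : ℝ) ≤ Real.exp (c * (ε / 3) ^ 6 * n) := by
    have e1 : Real.exp (c * (ε / 3) ^ 6 * n) = Real.exp (c / 1458 * ε ^ 6 * n) ^ 2 := by
      rw [← Real.exp_nat_mul]
      congr 1
      push_cast
      ring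
    rw [e1]
    push_cast
    nlinarith
  obtain ⟨h4, h5⟩ := hn (s + 2) (by omega) hk
  rw [← density_one] at h4 h5
  have hq : ∀ t : ℝ, (Real.exp 1 / (2 * Real.pi)) ^ ((n : ℝ) / 2) * Real.exp (t * n) =
      (Real.exp 1 / (2 * Real.pi) * Real.exp (2 * t)) ^ ((n : ℝ) / 2) := by
    intro t
    rw [Real.mul_rpow (by positivity) (Real.exp_pos _).le, ← Real.exp_mul]
    congr 2
    ring
  rw [hq] at h4 h5
  have h6 := ge_of hn0 (by positivity) h4
  have h7 := le_of hn0 (by positivity) (dens_nonneg le_rfl) h5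
  have h8 : ∀ t : ℝ, 4 * (Real.exp 1 / (2 * Real.pi) * t) / (2 * Real.pi * Real.exp 1) * (n : ℝ) =
      1 / Real.pi ^ 2 * t * n := by
    intro t
    field_simp
    ring
  rw [h8] at h6 h7
  change 1 / Real.pi ^ 2 * Real.exp (2 * -(ε / 3)) * n ≤ hermiteBound n s 1 at h6
  change hermiteBound n s 1 ≤ 1 / Real.pi ^ 2 * Real.exp (2 * (ε / 3)) * n *
    (3 * n : ℝ) ^ ((2 : ℝ) / n) at h7
  obtain ⟨H, hH⟩ : ∃ H : ℝ, H = hermiteBound n s 1 := ⟨_, rfl⟩
  rw [← hH] at h6 h7 ⊢
  obtain ⟨P, hP⟩ : ∃ P : ℝ, P = 1 / Real.pi ^ 2 := ⟨_, rfl⟩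
  have hP0 : 0 < P := by rw [hP]; positivity
  have hP1 : P ≤ 1 / 9 := by
    rw [hP]
    exact one_div_le_one_div_of_le (by norm_num) (by nlinarith)
  rw [← hP] at h6 h7 ⊢
  have h9 : P * Real.exp (2 * -(ε / 3)) ≤ H / n := by
    rw [le_div_iff₀ hn']
    exact h6
  have h10 : H / n ≤ P * Real.exp ε := by
    rw [div_le_iff₀ hn']
    refine h7.trans ?_
    have e1 : Real.exp ε = Real.exp (2 * (ε / 3)) * Real.exp (ε / 3) := by
      rw [← Real.exp_add]
      congr 1
      ring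
    calc P * Real.exp (2 * (ε / 3)) * n * (3 * n : ℝ) ^ ((2 : ℝ) / n)
        ≤ P * Real.exp (2 * (ε / 3)) * n * Real.exp (ε / 3) :=
          mul_le_mul_of_nonneg_left h3.le (by positivity)
      _ = P * Real.exp ε * n := by rw [e1]; ring
  have h11 : Real.exp ε ≤ 1 + 9 * ε := by
    have h12 : Real.exp ε ≤ 1 + ε + ε ^ 2 := by
      have := Real.abs_exp_sub_one_sub_id_le (x := ε) (by rw [abs_of_pos hε]; exact hε1)
      linarith [(abs_le.1 this).2]
    nlinarith
  have h13 : 1 - ε ≤ Real.exp (2 * -(ε / 3)) := by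
    have := Real.add_one_le_exp (2 * -(ε / 3))
    linarith
  rw [abs_le]
  constructor
  · nlinarith
  · nlinarith

/-- **The Lasserre hierarchy.** -/
lemma lasserre {ε : ℝ} (hε : 0 < ε) : ∃ c : ℝ, 0 < c ∧ ∀ᶠ n : ℕ in atTop, ∀ s t : ℕ, 1 ≤ t →
    (t : ℝ) * Real.log (t + 1) ≤ c * n → (s : ℝ) ≤ Real.exp (c * n) →
    (Real.exp 1 / 2) ^ ((1 - ε) / t) / (2 * Real.pi * Real.exp 1) ≤ hermiteBound n s t / n := by
  have hb := MP_dbfdb2_gt.LasserreBarrier.numbers.1
  obtain ⟨b, hbd⟩ : ∃ b : ℝ, b = 1 / 2 * Real.logb 2 (Real.exp 1 / 2) := ⟨_, rfl⟩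
  rw [← hbd] at hb
  have hb0 : 0 < b := by linarith
  obtain ⟨c, hc, hev⟩ := MP_dbfdb2_gt.LasserreBarrier.lower (ε := b * ε) (by positivity)
  refine ⟨c, hc, ?_⟩
  filter_upwards [hev, eventually_ge_atTop 1] with n hn hn1 s t ht h2 h3
  have hn0 : 0 < n := hn1
  have hn' : (0 : ℝ) < n := by exact_mod_cast hn0
  have ht0 : (0 : ℝ) < t := by exact_mod_cast ht
  have h4 := hn s t ht h2 h3
  rw [← density_eq', ← hbd] at h4
  have he2 : (2 : ℝ) ^ (2 * b) = Real.exp 1 / 2 := by
    rw [hbd, ← mul_assoc, show (2 : ℝ) * (1 / 2) = 1 by norm_num, one_mul,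
      Real.rpow_logb (by norm_num) (by norm_num) (by positivity)]
  have e1 : (2 : ℝ) ^ (-(n : ℝ) + (b - b * ε) * n / t) =
      ((Real.exp 1 / 2) ^ ((1 - ε) / t) / 4) ^ ((n : ℝ) / 2) := by
    have g1 : ((Real.exp 1 / 2) ^ ((1 - ε) / t)) ^ ((n : ℝ) / 2) =
        (2 : ℝ) ^ (2 * b * ((1 - ε) / t) * (n / 2)) := by
      rw [← Real.rpow_mul (by positivity), ← he2, ← Real.rpow_mul (by norm_num)]
      congr 1
      ring
    have g2 : (4 : ℝ) ^ ((n : ℝ) / 2) = (2 : ℝ) ^ (n : ℝ) := by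
      rw [show (4 : ℝ) = 2 ^ (2 : ℝ) by norm_num, ← Real.rpow_mul (by norm_num)]
      congr 1
      ring
    rw [Real.div_rpow (by positivity) (by norm_num), g1, g2, ← Real.rpow_sub (by norm_num)]
    congr 1
    field_simp
    ring
  rw [e1] at h4
  have h5 := ge_of hn0 (by positivity) h4
  rw [le_div_iff₀ hn']
  refine le_trans (le_of_eq ?_) h5
  ring

/-- **The levels which are needed.** -/
lemma levels (A : ℝ) : ∃ c : ℝ, 0 < c ∧ ∀ᶠ n : ℕ in atTop, ∀ s t : ℕ, 1 ≤ t →
    (s : ℝ) ≤ Real.exp (c * n) →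
    hermiteBound n s t / n ≤ (n : ℝ) ^ (A / n) / (2 * Real.pi * Real.exp 1) →
    c * n / Real.log n ≤ t := by
  obtain ⟨c, hc, hev⟩ := MP_dbfdb2_gt.LasserreBarrier.levels (A / 2)
  refine ⟨c, hc, ?_⟩
  filter_upwards [hev, eventually_ge_atTop 1] with n hn hn1 s t ht hs h
  refine hn s t ht hs ?_
  rw [← density_eq']
  have hn0 : 0 < n := hn1
  have hn' : (0 : ℝ) < n := by exact_mod_cast hn0
  have hom := om_pos n
  have hpi := Real.pi_pos
  have hD := dens_nonneg (n := n) (s := s) ht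
  obtain ⟨D, hDD⟩ : ∃ D : ℝ, D = lasserreDensity n s t := ⟨_, rfl⟩
  have h1 : 4 * (D / om n) ^ (2 / (n : ℝ)) / n ≤ (n : ℝ) ^ (A / n) /
      (2 * Real.pi * Real.exp 1) := by
    rw [hDD]
    exact h
  rw [← hDD] at hD ⊢
  have h2 : (D / om n) ^ (2 / (n : ℝ)) ≤ (n : ℝ) ^ (A / n) * (n / (8 * Real.pi * Real.exp 1)) := by
    rw [div_le_iff₀ hn'] at h1
    calc (D / om n) ^ (2 / (n : ℝ)) = 4 * (D / om n) ^ (2 / (n : ℝ)) / 4 := by ring
      _ ≤ (n : ℝ) ^ (A / n) / (2 * Real.pi * Real.exp 1) * n / 4 :=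
          div_le_div_of_nonneg_right h1 (by norm_num)
      _ = _ := by
          field_simp
          ring
  have h3 := Real.rpow_le_rpow (Real.rpow_nonneg (div_nonneg hD hom.le) _) h2
    (show (0 : ℝ) ≤ (n : ℝ) / 2 by positivity)
  rw [← Real.rpow_mul (div_nonneg hD hom.le), Real.mul_rpow (by positivity) (by positivity),
    ← Real.rpow_mul hn'.le] at h3
  have h4 : (2 : ℝ) / n * (n / 2) = 1 := by field_simp
  have h5 : A / (n : ℝ) * (n / 2) = A / 2 := by field_simp
  rw [h4, h5, Real.rpow_one, div_le_iff₀ hom] at h3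
  refine h3.trans ?_
  rw [mul_assoc]
  refine mul_le_mul_of_nonneg_left ?_ (by positivity)
  refine (mul_le_mul_of_nonneg_left (om_le hn0) (by positivity)).trans (le_of_eq ?_)
  rw [← Real.mul_rpow (by positivity) (by positivity)]
  have h6 : (n : ℝ) / (8 * Real.pi * Real.exp 1) * (2 * Real.pi * Real.exp 1 / n) =
      (2 : ℝ) ^ (-2 : ℝ) := by
    rw [Real.rpow_neg (by norm_num)]
    field_simp
    norm_num
  rw [h6, ← Real.rpow_mul (by norm_num)]
  congr 1
  ring

/-- **The semidefinite hierarchies for Hermite's constant.** -/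
theorem result :
    (∀ n s t : ℕ, 1 ≤ n → 1 ≤ t → hermite n ≤ hermiteBound n s t ∧
      hermiteBound n (s + 1) t ≤ hermiteBound n s t ∧
      hermiteBound n s (t + 1) ≤ hermiteBound n (s + 1) t) ∧
    (∃ c : ℝ, 0 < c ∧ ∀ ε : ℝ, 0 < ε → ε ≤ 1 → ∀ᶠ n : ℕ in atTop, ∀ s : ℕ,
      (s : ℝ) ≤ Real.exp (c * ε ^ 6 * n) → |hermiteBound n s 1 / n - 1 / Real.pi ^ 2| ≤ ε) ∧
    (∀ ε : ℝ, 0 < ε → ∃ c : ℝ, 0 < c ∧ ∀ᶠ n : ℕ in atTop, ∀ s t : ℕ, 1 ≤ t →
      (t : ℝ) * Real.log (t + 1) ≤ c * n → (s : ℝ) ≤ Real.exp (c * n) →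
      (Real.exp 1 / 2) ^ ((1 - ε) / t) / (2 * Real.pi * Real.exp 1) ≤ hermiteBound n s t / n) ∧
    (∀ A : ℝ, ∃ c : ℝ, 0 < c ∧ ∀ᶠ n : ℕ in atTop, ∀ s t : ℕ, 1 ≤ t →
      (s : ℝ) ≤ Real.exp (c * n) →
      hermiteBound n s t / n ≤ (n : ℝ) ^ (A / n) / (2 * Real.pi * Real.exp 1) →
      c * n / Real.log n ≤ t) := by
  refine ⟨fun n s t hn ht => ⟨valid hn ht, ?_, ?_⟩, kpoint, fun ε hε => lasserre hε, levels⟩
  · refine bound_mono (dens_nonneg ht) ?_
    rw [density_eq, density_eq]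
    exact LS.anti_s ht
  · refine bound_mono (dens_nonneg (by omega)) ?_
    rw [density_eq, density_eq]
    exact LS.anti_st ht

end Pool.Agent.Results.MP_ef2672_gt.HermiteHierarchies
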